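import Pool.Agent.Run7.h150.PPThm

/-!
# Countable obstructions to pp-constructibility from the two-element path

There is a sequence `C 0, C 1, …` of finite structures with finite signatures such that, for
every structure `B` with finite nonempty domain and arbitrary (possibly infinite) relational
signature, `B` has no pp-construction from the two-element path if and only if some `C i` has
a pp-construction from `B`.
-/

namespace Pool.Agent.Results.MP_8f9fef_lc.CountableObstructions

open Run7.h150.PPC

universe u v

theorem result : ∃ C : ℕ → FinStr,
    ∀ (σ : Type u) (ar : σ → ℕ) (B : Type v) (R : Interp ar B), Finite B → Nonempty B →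
      (¬ PPConstr P2 R ↔ ∃ i, PPConstr R (C i).R) :=
  main

end Pool.Agent.Results.MP_8f9fef_lc.CountableObstructions
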